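import Pool.Agent.Lib.MP_23961f_co.AA.Final

set_option autoImplicit false

open Pool.Agent.Lib.MP_23961f_co.AA

namespace Pool.Agent.Results.MP_23961f_co.AlmostAll

/-- For every `ε > 0`, for all but a proportion `ε` of the graphs `G` on `n` labelled vertices
(`n` large) there are positive semidefinite matrices `A`, `B` for `G` and its complement, each with
the off-diagonal nonzero pattern of its graph and the Strong Arnold Property, both of nullity at
least `(2/3 - ε) n`. -/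
theorem result :
    ∀ ε : ℝ, 0 < ε → ∃ n₀ : ℕ, ∀ n : ℕ, n₀ ≤ n →
      (Set.ncard {G : SimpleGraph (Fin n) | ¬ ∃ (A B : Matrix (Fin n) (Fin n) ℝ),
        A.PosSemidef ∧
        (∀ i j, i ≠ j → (A i j ≠ 0 ↔ G.Adj i j)) ∧
        (∀ X : Matrix (Fin n) (Fin n) ℝ, X.IsSymm → (∀ i, X i i = 0) →
            (∀ i j, G.Adj i j → X i j = 0) → A * X = 0 → X = 0) ∧
        B.PosSemidef ∧
        (∀ i j, i ≠ j → (B i j ≠ 0 ↔ Gᶜ.Adj i j)) ∧
        (∀ X : Matrix (Fin n) (Fin n) ℝ, X.IsSymm → (∀ i, X i i = 0) →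
            (∀ i j, Gᶜ.Adj i j → X i j = 0) → B * X = 0 → X = 0) ∧
        (2 / 3 - ε) * n ≤ (n : ℝ) - A.rank ∧ (2 / 3 - ε) * n ≤ (n : ℝ) - B.rank} : ℝ) ≤
        ε * Fintype.card (SimpleGraph (Fin n)) := by
  classical
  intro ε hε
  obtain ⟨n₀, hn₀⟩ := almost_all_one ε (ε / 2) hε (by positivity)
  refine ⟨n₀, fun n hn => ?_⟩
  have h := hn₀ n hn
  set bad : Finset (SimpleGraph (Fin n)) := Finset.univ.filter
    (fun G : SimpleGraph (Fin n) => ¬ HasMat Gᶜ ((1 / 3 + ε) * n)) with hbad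
  set bad' : Finset (SimpleGraph (Fin n)) := bad.image (fun G => Gᶜ) with hbad'
  have hsub : {G : SimpleGraph (Fin n) | ¬ ∃ (A B : Matrix (Fin n) (Fin n) ℝ),
        A.PosSemidef ∧
        (∀ i j, i ≠ j → (A i j ≠ 0 ↔ G.Adj i j)) ∧
        (∀ X : Matrix (Fin n) (Fin n) ℝ, X.IsSymm → (∀ i, X i i = 0) →
            (∀ i j, G.Adj i j → X i j = 0) → A * X = 0 → X = 0) ∧
        B.PosSemidef ∧
        (∀ i j, i ≠ j → (B i j ≠ 0 ↔ Gᶜ.Adj i j)) ∧
        (∀ X : Matrix (Fin n) (Fin n) ℝ, X.IsSymm → (∀ i, X i i = 0) →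
            (∀ i j, Gᶜ.Adj i j → X i j = 0) → B * X = 0 → X = 0) ∧
        (2 / 3 - ε) * n ≤ (n : ℝ) - A.rank ∧ (2 / 3 - ε) * n ≤ (n : ℝ) - B.rank} ⊆
      ((bad ∪ bad' : Finset (SimpleGraph (Fin n))) : Set (SimpleGraph (Fin n))) := by
    intro G hG
    by_contra hcon
    simp only [Finset.coe_union, Set.mem_union, Finset.mem_coe, not_or] at hcon
    obtain ⟨h1, h2⟩ := hcon
    apply hG
    have hB : HasMat Gᶜ ((1 / 3 + ε) * n) := by
      by_contra h3
      exact h1 (Finset.mem_filter.2 ⟨Finset.mem_univ _, h3⟩)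
    have hA : HasMat G ((1 / 3 + ε) * n) := by
      by_contra h3
      apply h2
      refine Finset.mem_image.2 ⟨Gᶜ, Finset.mem_filter.2 ⟨Finset.mem_univ _, ?_⟩, compl_compl G⟩
      rw [compl_compl]
      exact h3
    obtain ⟨A, hA1, hA2, hA3, hA4⟩ := hA
    obtain ⟨B, hB1, hB2, hB3, hB4⟩ := hB
    exact ⟨A, B, hA1, hA2, hA3, hB1, hB2, hB3, by linarith, by linarith⟩
  have h1 := Set.ncard_le_ncard hsub (Finset.finite_toSet _)
  rw [Set.ncard_coe_finset] at h1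
  have h2 : (bad ∪ bad').card ≤ bad.card + bad.card :=
    (Finset.card_union_le _ _).trans (Nat.add_le_add_left Finset.card_image_le _)
  have h3 : ((bad ∪ bad').card : ℝ) ≤ bad.card + bad.card := by exact_mod_cast h2
  calc _ ≤ ((bad ∪ bad').card : ℝ) := by exact_mod_cast h1
    _ ≤ bad.card + bad.card := h3
    _ ≤ ε * Fintype.card (SimpleGraph (Fin n)) := by linarith

end Pool.Agent.Results.MP_23961f_co.AlmostAll
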