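import Pool.Agent.Lib.MP_23961f_co.K.Cover

/-!
MP_23961f_co: the complement inequality from covers of a graph and its complement.

`IsShift G G' z z'`: for an edge `zz'` of `G`, in `G'` the vertex `z` is joined to all neighbours of
`z` or `z'`, `z'` only to the common neighbours, the edge `zz'` stays, nothing else changes.
`Good G S D a C`: `C ⊆ S`, the vertices of `C` outside `D` form a clique, and their number plus the
number of common neighbours of `C` in `S` is more than `a`.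
`Cov G a`: for some vertex sets `S`, `D` with `a < |S|`, of any two non-adjacent vertices of `S` one
lies in a good set.
`Cert a G`: some graph obtained from `G` by shifts satisfies `Cov _ a`.
-/

set_option autoImplicit false

namespace Pool.Agent.Results.MP_23961f_co.CoverSum

variable {n : ℕ}

/-- `G'` arises from `G` by the shift of `z'` to `z` along the edge `zz'`. -/
def IsShift (G G' : SimpleGraph (Fin n)) (z z' : Fin n) : Prop :=
  G.Adj z z' ∧ G'.Adj z z' ∧
  (∀ w, w ≠ z → w ≠ z' → (G'.Adj z w ↔ G.Adj z w ∨ G.Adj z' w)) ∧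
  (∀ w, w ≠ z → w ≠ z' → (G'.Adj z' w ↔ G.Adj z w ∧ G.Adj z' w)) ∧
  (∀ v w, v ≠ z → v ≠ z' → w ≠ z → w ≠ z' → (G'.Adj v w ↔ G.Adj v w))

/-- `C ⊆ S`, the vertices of `C` outside `D` form a clique, and their number plus the number of
common neighbours of `C` in `S` (outside `C`) is more than `a`. -/
def Good (G : SimpleGraph (Fin n)) (S D : Finset (Fin n)) (a : ℕ) (C : Finset (Fin n)) : Prop :=
  C ⊆ S ∧ (∀ v ∈ C, v ∉ D → ∀ w ∈ C, w ∉ D → v ≠ w → G.Adj v w) ∧
    a < Set.ncard {v | v ∈ C ∧ v ∉ D} + Set.ncard {w | w ∈ S ∧ w ∉ C ∧ ∀ v ∈ C, G.Adj v w}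

/-- For some `S`, `D` with `a < |S|`, of any two non-adjacent vertices of `S` one lies in a good
set. -/
def Cov (G : SimpleGraph (Fin n)) (a : ℕ) : Prop :=
  ∃ S D : Finset (Fin n), a < S.card ∧ ∀ v ∈ S, ∀ w ∈ S, v ≠ w → ¬ G.Adj v w →
    ∃ C, (v ∈ C ∨ w ∈ C) ∧ Good G S D a C

/-- Some graph obtained from `G` by shifts has a cover of level `a`. -/
inductive Cert (a : ℕ) : SimpleGraph (Fin n) → Prop
  | cov (G : SimpleGraph (Fin n)) (h : Cov G a) : Cert a G
  | shift (G G' : SimpleGraph (Fin n)) (z z' : Fin n) (h : IsShift G G' z z') (h' : Cert a G') :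
      Cert a G

theorem eq_esh {G G' : SimpleGraph (Fin n)} {z z' : Fin n} (h : IsShift G G' z z') :
    G' = Lib.MP_23961f_co.K.esh G z z' := by
  obtain ⟨h1, h2, h3, h4, h5⟩ := h
  have hne : z ≠ z' := h1.ne
  ext v w
  show G'.Adj v w ↔ (v ≠ w ∧
    ((v = z ∧ w = z') ∨ (v = z' ∧ w = z) ∨
      (v = z ∧ w ≠ z' ∧ (G.Adj z w ∨ G.Adj z' w)) ∨
      (w = z ∧ v ≠ z' ∧ (G.Adj z v ∨ G.Adj z' v)) ∨
      (v = z' ∧ w ≠ z ∧ G.Adj z w ∧ G.Adj z' w) ∨
      (w = z' ∧ v ≠ z ∧ G.Adj z v ∧ G.Adj z' v) ∨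
      (v ≠ z ∧ v ≠ z' ∧ w ≠ z ∧ w ≠ z' ∧ G.Adj v w)))
  by_cases hvz : v = z
  · subst hvz
    by_cases hwz : w = v
    · subst hwz
      simp
    · by_cases hwz' : w = z'
      · subst hwz'
        simp [h2, hne]
      · rw [h3 w hwz hwz']
        have := Ne.symm hwz
        tauto
  · by_cases hvz' : v = z'
    · subst hvz'
      by_cases hwz : w = z
      · subst hwz
        simp [h2.symm, hne.symm]
      · by_cases hwz' : w = v
        · subst hwz'
          simp
        · rw [h4 w hwz hwz']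
          have := Ne.symm hwz'
          tauto
    · by_cases hwz : w = z
      · subst hwz
        rw [G'.adj_comm, h3 v hvz hvz']
        tauto
      · by_cases hwz' : w = z'
        · subst hwz'
          rw [G'.adj_comm, h4 v hvz hvz']
          tauto
        · rw [h5 v w hvz hvz' hwz hwz']
          have h6 : G.Adj v w → v ≠ w := fun h => h.ne
          tauto

theorem cov_lib {G : SimpleGraph (Fin n)} {a : ℕ} (h : Cov G a) : Lib.MP_23961f_co.K.Cov G a := by
  obtain ⟨S, D, haS, hcov⟩ := h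
  refine ⟨S, D, haS, fun v hv w hw h1 h2 => ?_⟩
  obtain ⟨C, h3 | h3, h4⟩ := hcov v hv w hw h1 h2
  · exact Or.inl ⟨C, h3, h4⟩
  · exact Or.inr ⟨C, h3, h4⟩

theorem cert_lib {G : SimpleGraph (Fin n)} {a : ℕ} (h : Cert a G) :
    Lib.MP_23961f_co.K.Cert a G := by
  induction h with
  | cov G h => exact Lib.MP_23961f_co.K.Cert.cov G (cov_lib h)
  | shift G G' z z' h h' ih =>
    rw [eq_esh h] at ih
    exact Lib.MP_23961f_co.K.Cert.shift G z z' h.1 ih

/-- The complement inequality from covers of both graphs after shifts. -/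
theorem result {n : ℕ} (G : SimpleGraph (Fin n)) (a b : ℕ) (ha : Cert a G) (hb : Cert b Gᶜ) :
    ∃ (A B : Matrix (Fin n) (Fin n) ℝ),
      A.PosSemidef ∧
      (∀ i j, i ≠ j → (A i j ≠ 0 ↔ G.Adj i j)) ∧
      (∀ X : Matrix (Fin n) (Fin n) ℝ, X.IsSymm → (∀ i, X i i = 0) →
          (∀ i j, G.Adj i j → X i j = 0) → A * X = 0 → X = 0) ∧
      B.PosSemidef ∧
      (∀ i j, i ≠ j → (B i j ≠ 0 ↔ Gᶜ.Adj i j)) ∧
      (∀ X : Matrix (Fin n) (Fin n) ℝ, X.IsSymm → (∀ i, X i i = 0) →
          (∀ i j, Gᶜ.Adj i j → X i j = 0) → B * X = 0 → X = 0) ∧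
      b + max a (min 3 (n - 2 - b)) ≤ (n - A.rank) + (n - B.rank) :=
  Lib.MP_23961f_co.K.gcc_of_cert G a b (cert_lib ha) (cert_lib hb)

end Pool.Agent.Results.MP_23961f_co.CoverSum
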