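import Pool.Agent.Lib.MP_23961f_co.Degenerate

set_option autoImplicit false

open Pool.Agent.Lib.MP_23961f_co

namespace Pool.Agent.Results.MP_23961f_co.TwoThirds

/-- For every graph `G` on `n` vertices there are positive semidefinite matrices `A`, `B`
for `G` and its complement, each with the off-diagonal nonzero pattern of its graph and the Strong
Arnold Property, whose nullities sum to at least `(2n-2)/3`. -/
theorem result :
    ∀ (n : ℕ) (G : SimpleGraph (Fin n)),
      ∃ (A B : Matrix (Fin n) (Fin n) ℝ),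
        A.PosSemidef ∧
        (∀ i j, i ≠ j → (A i j ≠ 0 ↔ G.Adj i j)) ∧
        (∀ X : Matrix (Fin n) (Fin n) ℝ, X.IsSymm → (∀ i, X i i = 0) →
            (∀ i j, G.Adj i j → X i j = 0) → A * X = 0 → X = 0) ∧
        B.PosSemidef ∧
        (∀ i j, i ≠ j → (B i j ≠ 0 ↔ Gᶜ.Adj i j)) ∧
        (∀ X : Matrix (Fin n) (Fin n) ℝ, X.IsSymm → (∀ i, X i i = 0) →
            (∀ i j, Gᶜ.Adj i j → X i j = 0) → B * X = 0 → X = 0) ∧
        3 * ((n - A.rank) + (n - B.rank)) + 2 ≥ 2 * n := by
  classical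
  intro n G
  -- the property of having a good matrix of rank at most `r`
  let Q : SimpleGraph (Fin n) → ℕ → Prop := fun H r =>
    ∃ A : Matrix (Fin n) (Fin n) ℝ, A.PosSemidef ∧
        (∀ i j, i ≠ j → (A i j ≠ 0 ↔ H.Adj i j)) ∧
        (∀ X : Matrix (Fin n) (Fin n) ℝ, X.IsSymm → (∀ i, X i i = 0) →
            (∀ i j, H.Adj i j → X i j = 0) → A * X = 0 → X = 0) ∧ A.rank ≤ r
  -- the degeneracy of a graph
  have key : ∀ H : SimpleGraph (Fin n), ∃ k : ℕ, Q H (n - k) ∧ Q Hᶜ (2 * k + 1) := by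
    intro H
    have hex : ∃ k : ℕ, ∀ S : Finset (Fin n), S.Nonempty → ∃ v ∈ S, (nb H S v).card ≤ k := by
      refine ⟨n, ?_⟩
      intro S hS
      obtain ⟨v, hv⟩ := hS
      refine ⟨v, hv, ?_⟩
      have := Finset.card_le_univ (nb H S v)
      rwa [Fintype.card_fin] at this
    obtain ⟨k, hk, hkmin⟩ : ∃ k : ℕ,
        (∀ S : Finset (Fin n), S.Nonempty → ∃ v ∈ S, (nb H S v).card ≤ k) ∧
        ∀ m < k, ¬ (∀ S : Finset (Fin n), S.Nonempty → ∃ v ∈ S, (nb H S v).card ≤ m) :=
      ⟨Nat.find hex, Nat.find_spec hex, fun m hm => Nat.find_min hex hm⟩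
    refine ⟨k, ?_, ?_⟩
    · rcases Nat.eq_zero_or_pos k with h0 | hpos
      · -- rank at most n
        rw [h0]
        rcases Nat.eq_zero_or_pos n with hn | hn
        · subst hn
          refine ⟨0, Matrix.PosSemidef.zero, fun i => i.elim0, ?_, by simp⟩
          intro X _ _ _ _
          ext i
          exact i.elim0
        · obtain ⟨ℓ, hℓ⟩ := exists_levelStructure_of_subset H Finset.univ
            ⟨⟨0, hn⟩, Finset.mem_univ _⟩ 0 (fun v _ => Nat.zero_le _)
          rw [Fintype.card_fin] at hℓ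
          exact exists_matrix_of_levelStructure H (n - 0) ℓ hℓ
      · have hmin := hkmin (k - 1) (by omega)
        push Not at hmin
        obtain ⟨S, hS, hSv⟩ := hmin
        obtain ⟨ℓ, hℓ⟩ := exists_levelStructure_of_subset H S hS k (by
          intro v hv
          have h5 : k - 1 < (nb H S v).card := hSv v hv
          have h6 : k ≤ (nb H S v).card := by omega
          exact h6)
        rw [Fintype.card_fin] at hℓ
        exact exists_matrix_of_levelStructure H (n - k) ℓ hℓ
    · apply exists_matrix_of_degenerate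
      rw [compl_compl]
      exact hk
  obtain ⟨k, ⟨A, hA1, hA2, hA3, hA4⟩, ⟨B, hB1, hB2, hB3, hB4⟩⟩ := key G
  obtain ⟨k', ⟨B', hB1', hB2', hB3', hB4'⟩, h2⟩ := key Gᶜ
  rw [compl_compl] at h2
  obtain ⟨A', hA1', hA2', hA3', hA4'⟩ := h2
  have rA : A.rank ≤ n := by
    have := Matrix.rank_le_card_width A
    rwa [Fintype.card_fin] at this
  have rB : B.rank ≤ n := by
    have := Matrix.rank_le_card_width B
    rwa [Fintype.card_fin] at this
  have rA' : A'.rank ≤ n := by
    have := Matrix.rank_le_card_width A'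
    rwa [Fintype.card_fin] at this
  have rB' : B'.rank ≤ n := by
    have := Matrix.rank_le_card_width B'
    rwa [Fintype.card_fin] at this
  -- three candidate pairs
  by_cases h1 : 3 * ((n - A.rank) + (n - B.rank)) + 2 ≥ 2 * n
  · exact ⟨A, B, hA1, hA2, hA3, hB1, hB2, hB3, h1⟩
  by_cases h3 : 3 * ((n - A'.rank) + (n - B'.rank)) + 2 ≥ 2 * n
  · exact ⟨A', B', hA1', hA2', hA3', hB1', hB2', hB3', h3⟩
  refine ⟨A, B', hA1, hA2, hA3, hB1', hB2', hB3', ?_⟩
  have hkn : k ≤ n ∨ n < k := le_or_gt k n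
  have hkn' : k' ≤ n ∨ n < k' := le_or_gt k' n
  omega

end Pool.Agent.Results.MP_23961f_co.TwoThirds
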